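import Mathlib

/-!
# Project GL: statements, only Mathlib (helper202)
-/

set_option autoImplicit false

open Complex Finset

namespace Pool.Agent.R202.GL

/-- `log (R² / (R² - 1))` -/
noncomputable def LL (R : ℝ) : ℝ := Real.log (R ^ 2 / (R ^ 2 - 1))

/-- The function `h(z) = ∑ a_n z^(-n)` has its spectrum in finite blocks `B 0, B 1, …` of at most
`M` positive integers with `min B (k+1) ≥ q max B k`. -/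
def Blocks (M : ℕ) (q : ℝ) (a : ℕ → ℂ) (B : ℕ → Finset ℕ) (h : ℂ → ℂ) : Prop :=
  (∀ z : ℂ, 1 < ‖z‖ → HasSum (fun n => a n * z⁻¹ ^ n) (h z)) ∧
  (∀ n, a n ≠ 0 → ∃ k, n ∈ B k) ∧
  (∀ k, (B k).Nonempty ∧ (B k).card ≤ M ∧ ∀ n ∈ B k, 1 ≤ n) ∧
  (∀ k, ∀ m ∈ B k, ∀ n ∈ B (k + 1), q * (m : ℝ) ≤ n)

/-- GL-1: coefficients -/
def CoefStm : Prop :=
  ∀ H : ℂ → ℂ, DifferentiableOn ℂ H (Metric.ball 0 1) →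
    (∀ v ∈ Metric.ball (0 : ℂ) 1, ‖((1 - ‖v‖ ^ 2 : ℝ) : ℂ) * (v * deriv H v)‖ ≤ 6 * ‖v‖) →
    ∀ a : ℕ → ℂ, (∀ v ∈ Metric.ball (0 : ℂ) 1, HasSum (fun n => a n * v ^ n) (H v)) →
    ∀ n, 1 ≤ n → ‖a n‖ ≤ 24

/-- GL-2: exponential moments of sums of functions at separated scales -/
def ProdStm : Prop :=
  ∀ (N : ℕ) (u u' U : ℕ → ℝ → ℝ) (b q : ℝ) (m n : ℕ → ℝ), 0 ≤ b → 2 ≤ q →
    (∀ k, 0 < n k) → (∀ k, n k ≤ m k) → (∀ k, q * m k ≤ n (k + 1)) →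
    (∀ k θ, HasDerivAt (U k) (u k θ) θ) → (∀ k θ, HasDerivAt (u k) (u' k θ) θ) →
    (∀ k, Continuous (u' k)) → (∀ k, Function.Periodic (U k) (2 * Real.pi)) →
    (∀ k, Function.Periodic (u k) (2 * Real.pi)) →
    (∀ k θ, |u k θ| ≤ b) → (∀ k θ, |u' k θ| ≤ b * m k) → (∀ k θ, |U k θ| ≤ b / n k) →
    ∫ θ in (0:ℝ)..(2 * Real.pi), Real.exp (∑ k ∈ range N, u k θ) ≤
      2 * Real.pi * Real.exp (N * (b ^ 2 * Real.exp b + 4 * b ^ 2))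

/-- GL-3: number of relevant blocks and the tail -/
def TailStm : Prop :=
  ∀ (M : ℕ) (q : ℝ), 1 ≤ M → 2 ≤ q →
    ∀ (h : ℂ → ℂ) (a : ℕ → ℂ) (B : ℕ → Finset ℕ), Blocks M q a B h → (∀ n, ‖a n‖ ≤ 24) →
    ∀ R : ℝ, 1 < R → ∃ N : ℕ, (N : ℝ) ≤ 1 + LL R / Real.log q ∧
      ∀ z : ℂ, ‖z‖ = R → ‖h z - ∑ k ∈ range N, ∑ n ∈ B k, a n * z⁻¹ ^ n‖ ≤ 200 * M

/-- GL-4: exponential moments for bounded `t` -/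
def MomentStm : Prop :=
  ∀ (M : ℕ) (T : ℝ), 1 ≤ M → 1 ≤ T → ∃ q C : ℝ, 2 ≤ q ∧ 1 ≤ C ∧
    ∀ (h : ℂ → ℂ) (a : ℕ → ℂ) (B : ℕ → Finset ℕ), Blocks M q a B h → (∀ n, ‖a n‖ ≤ 24) →
    ContinuousOn h {z : ℂ | 1 < ‖z‖} → ∀ R : ℝ, 1 < R → ∀ t : ℂ, ‖t‖ ≤ T →
      ∫ θ in (0:ℝ)..(2 * Real.pi), Real.exp ((starRingEnd ℂ) t *
        h ((R : ℂ) * Complex.exp ((θ : ℂ) * Complex.I))).re ≤
      2 * Real.pi * (C * Real.exp (‖t‖ ^ 2 * (LL R / T)))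

/-- GL-5: Gaussian averages -/
def GaussStm : Prop :=
  ∀ (h : ℂ → ℂ) (R a C T : ℝ), 1 < R → ContinuousOn h {z : ℂ | 1 < ‖z‖} → 0 < a → 8 * a ≤ T →
    0 < C →
    (∀ t : ℂ, ∫ θ in (0:ℝ)..(2 * Real.pi), Real.exp ((starRingEnd ℂ) t *
        h ((R : ℂ) * Complex.exp ((θ : ℂ) * Complex.I))).re ≤
      2 * Real.pi * (C * Real.exp (‖t‖ ^ 2 * (LL R / T)))) →
    (1 / (2 * Real.pi)) * ∫ θ in (0:ℝ)..(2 * Real.pi),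
      Real.exp (a * ‖h ((R : ℂ) * Complex.exp ((θ : ℂ) * Complex.I))‖ ^ 2 / LL R) ≤ 2 * C

end Pool.Agent.R202.GL
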