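import Mathlib
import Pool.Agent.R202.GL.Stm0

/-!
GL-1 (MP_16b0ee_an): the Bloch bound gives coefficients at most 24.
-/

set_option autoImplicit false

open Complex Finset

namespace Pool.Agent.R202.GL

namespace Coefx

theorem coeff_eq (H : ℂ → ℂ) (hH : DifferentiableOn ℂ H (Metric.ball 0 1)) (a : ℕ → ℂ)
    (ha : ∀ v ∈ Metric.ball (0 : ℂ) 1, HasSum (fun n => a n * v ^ n) (H v)) (n : ℕ) :
    a n = iteratedDeriv n H 0 / (n.factorial : ℂ) := by
  have h1 : AnalyticAt ℂ H 0 :=
    (hH.analyticOnNhd Metric.isOpen_ball) 0 (Metric.mem_ball_self one_pos)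
  have h2 := h1.hasFPowerSeriesAt
  have h3 : HasFPowerSeriesAt H (FormalMultilinearSeries.ofScalars ℂ a) 0 := by
    rw [hasFPowerSeriesAt_iff]
    filter_upwards [Metric.ball_mem_nhds (0 : ℂ) one_pos] with v hv
    have h4 := ha v hv
    rw [zero_add]
    have e : (fun n => v ^ n • (FormalMultilinearSeries.ofScalars ℂ a).coeff n) =
        fun n => a n * v ^ n := by
      funext n
      rw [FormalMultilinearSeries.coeff_ofScalars, smul_eq_mul, mul_comm]
    rw [e]
    exact h4
  have h5 := h3.eq_formalMultilinearSeries h2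
  have h6 := congrArg (fun p => FormalMultilinearSeries.coeff p n) h5
  simpa [FormalMultilinearSeries.coeff_ofScalars] using h6

theorem pow_ge (m : ℕ) (hm : 1 ≤ m) : 1 / 4 ≤ ((m : ℝ) / (m + 1)) ^ m := by
  have hm0 : (0 : ℝ) < m := by exact_mod_cast hm
  have h1 : (1 + 1 / (m : ℝ)) ^ m ≤ Real.exp 1 := by
    have h2 : 1 + 1 / (m : ℝ) ≤ Real.exp (1 / m) := by
      rw [add_comm]
      exact Real.add_one_le_exp _
    calc (1 + 1 / (m : ℝ)) ^ m ≤ (Real.exp (1 / m)) ^ m := by gcongr
      _ = Real.exp 1 := by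
          rw [← Real.exp_nat_mul]
          congr 1
          field_simp
  have h3 : Real.exp 1 ≤ 4 := by
    have := Real.exp_one_lt_d9
    linarith
  have e : (m : ℝ) / (m + 1) = (1 + 1 / (m : ℝ))⁻¹ := by field_simp
  rw [e, inv_pow, one_div]
  exact inv_anti₀ (by positivity) (h1.trans h3)

end Coefx

open Coefx in
theorem coef : CoefStm := by
  intro H hH hB a ha n hn
  rw [coeff_eq H hH a ha n]
  obtain ⟨m, rfl⟩ : ∃ m, n = m + 1 := ⟨n - 1, by omega⟩
  -- the radius
  obtain ⟨r, hr0, hr1, hr2⟩ : ∃ r : ℝ, 0 < r ∧ r < 1 ∧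
      6 ≤ 24 * (((m : ℝ) + 1) * ((1 - r ^ 2) * r ^ m)) := by
    rcases Nat.eq_zero_or_pos m with hm | hm
    · subst hm
      refine ⟨1 / 2, by norm_num, by norm_num, ?_⟩
      norm_num
    · have hm0 : (0 : ℝ) < m := by exact_mod_cast hm
      refine ⟨(m : ℝ) / (m + 1), by positivity, ?_, ?_⟩
      · rw [div_lt_one (by positivity)]
        linarith
      · have h1 := pow_ge m hm
        set r := (m : ℝ) / (m + 1) with hr
        have h2 : 1 - r = 1 / ((m : ℝ) + 1) := by
          rw [hr]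
          field_simp
          ring
        have hr0 : 0 ≤ r := by positivity
        have hr1 : r ≤ 1 := by
          rw [hr, div_le_one (by positivity)]
          linarith
        have h3 : 1 / ((m : ℝ) + 1) ≤ 1 - r ^ 2 := by
          rw [← h2]
          nlinarith
        have h4 : 1 / ((m : ℝ) + 1) * (1 / 4) ≤ (1 - r ^ 2) * r ^ m := by
          refine mul_le_mul h3 h1 (by norm_num) (le_trans (by positivity) h3)
        have h5 : ((m : ℝ) + 1) * (1 / ((m : ℝ) + 1) * (1 / 4)) ≤
            ((m : ℝ) + 1) * ((1 - r ^ 2) * r ^ m) := by gcongr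
        have h6 : ((m : ℝ) + 1) * (1 / ((m : ℝ) + 1) * (1 / 4)) = 1 / 4 := by field_simp
        linarith
  have hpos : 0 < 1 - r ^ 2 := by nlinarith
  have hd : DifferentiableOn ℂ (deriv H) (Metric.ball 0 1) := hH.deriv Metric.isOpen_ball
  have hcl : DiffContOnCl ℂ (deriv H) (Metric.ball 0 r) :=
    (hd.mono (Metric.closedBall_subset_ball hr1)).diffContOnCl_ball subset_rfl
  have hC : ∀ v ∈ Metric.sphere (0 : ℂ) r, ‖deriv H v‖ ≤ 6 / (1 - r ^ 2) := by
    intro v hv
    have hvr : ‖v‖ = r := by simpa using hv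
    have h1 := hB v (by rw [mem_ball_zero_iff, hvr]; exact hr1)
    rw [norm_mul, norm_mul, hvr, Complex.norm_real, Real.norm_eq_abs, abs_of_pos hpos] at h1
    rw [le_div_iff₀ hpos]
    have h2 : r * (‖deriv H v‖ * (1 - r ^ 2)) ≤ r * 6 := by linarith
    exact le_of_mul_le_mul_left h2 hr0
  have hCa := Complex.norm_iteratedDeriv_le_of_forall_mem_sphere_norm_le m hr0 hcl hC
  rw [iteratedDeriv_succ', norm_div, Complex.norm_natCast, Nat.factorial_succ]
  have hf : (0 : ℝ) < m.factorial := by exact_mod_cast Nat.factorial_pos m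
  rw [div_le_iff₀ (by positivity)]
  refine hCa.trans ?_
  rw [div_le_iff₀ (by positivity)]
  push_cast
  have h1 : (m.factorial : ℝ) * (6 / (1 - r ^ 2)) ≤
      (m.factorial : ℝ) * (24 * (((m : ℝ) + 1) * ((1 - r ^ 2) * r ^ m)) / (1 - r ^ 2)) := by
    gcongr
  refine h1.trans (le_of_eq ?_)
  field_simp

end Pool.Agent.R202.GL
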