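import Pool.Agent.R202.GL.Stm0

/-!
# GL-4: exponential moments of gap series
-/

set_option autoImplicit false

open Complex Finset

namespace Pool.Agent.R202.GL

namespace MomentAux

/-- trigonometric sums -/
noncomputable def F (c : ℕ → ℂ) (S : Finset ℕ) (θ : ℝ) : ℝ :=
  (∑ n ∈ S, c n * cexp (((-((n : ℝ) * θ) : ℝ) : ℂ) * I)).re

theorem F_bound (c : ℕ → ℂ) (S : Finset ℕ) (θ : ℝ) : |F c S θ| ≤ ∑ n ∈ S, ‖c n‖ := by
  unfold F
  refine (Complex.abs_re_le_norm _).trans ((norm_sum_le _ _).trans (le_of_eq ?_))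
  refine Finset.sum_congr rfl (fun n _ => ?_)
  rw [norm_mul, Complex.norm_exp_ofReal_mul_I, mul_one]

theorem F_cont (c : ℕ → ℂ) (S : Finset ℕ) : Continuous (F c S) := by
  unfold F
  fun_prop

theorem F_periodic (c : ℕ → ℂ) (S : Finset ℕ) : Function.Periodic (F c S) (2 * Real.pi) := by
  intro θ
  unfold F
  congr 1
  refine Finset.sum_congr rfl (fun n _ => ?_)
  congr 1
  have h : ((-((n : ℝ) * (θ + 2 * Real.pi)) : ℝ) : ℂ) * I =
      ((-((n : ℝ) * θ) : ℝ) : ℂ) * I + ((-(n : ℤ) : ℤ) : ℂ) * (2 * Real.pi * I) := by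
    push_cast
    ring
  rw [h, Complex.exp_add, Complex.exp_int_mul_two_pi_mul_I, mul_one]

theorem F_deriv (c : ℕ → ℂ) (S : Finset ℕ) (θ : ℝ) :
    HasDerivAt (F c S) (F (fun n => c n * (-(n : ℂ) * I)) S θ) θ := by
  have h1 : ∀ n ∈ S, HasDerivAt (fun θ : ℝ => c n * cexp (((-((n : ℝ) * θ) : ℝ) : ℂ) * I))
      (c n * (-(n : ℂ) * I) * cexp (((-((n : ℝ) * θ) : ℝ) : ℂ) * I)) θ := by
    intro n _
    have h2 : HasDerivAt (fun θ : ℝ => (-((n : ℝ) * θ))) (-((n : ℝ) * 1)) θ :=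
      ((hasDerivAt_id θ).const_mul (n : ℝ)).neg
    have h3 := (h2.ofReal_comp.mul_const I).cexp.const_mul (c n)
    have h6 : c n * (cexp (((-((n : ℝ) * θ) : ℝ) : ℂ) * I) * (((-((n : ℝ) * 1) : ℝ) : ℂ) * I)) =
        c n * (-(n : ℂ) * I) * cexp (((-((n : ℝ) * θ) : ℝ) : ℂ) * I) := by
      have h7 : ((-((n : ℝ) * 1) : ℝ) : ℂ) = -(n : ℂ) := by
        push_cast
        ring
      rw [h7]
      ring
    rw [← h6]
    exact h3
  have h4 := HasDerivAt.fun_sum h1
  have h5 := (Complex.reCLM.hasFDerivAt (x := ∑ n ∈ S, c n *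
    cexp (((-((n : ℝ) * θ) : ℝ) : ℂ) * I))).comp_hasDerivAt θ h4
  exact h5

theorem F_congr (c c' : ℕ → ℂ) (S : Finset ℕ) (h : ∀ n ∈ S, c n = c' n) (θ : ℝ) :
    F c S θ = F c' S θ := by
  unfold F
  congr 1
  exact Finset.sum_congr rfl (fun n hn => by rw [h n hn])

end MomentAux

open MomentAux

theorem moment (hP : ProdStm) (hT : TailStm) : MomentStm := by
  intro M T hM hT1
  obtain ⟨K, hK⟩ : ∃ K : ℝ, K = (24 * M) ^ 2 * (Real.exp (24 * M * T) + 4) := ⟨_, rfl⟩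
  have hM1 : (1 : ℝ) ≤ M := by exact_mod_cast hM
  have hK1 : 1 ≤ K := by
    rw [hK]
    have h1 : (1 : ℝ) ≤ (24 * M) ^ 2 := by nlinarith
    have h2 : (1 : ℝ) ≤ Real.exp (24 * M * T) + 4 := by
      have := Real.exp_pos (24 * M * T)
      linarith
    nlinarith
  have hKT : 1 ≤ K * T := by nlinarith
  have hq2 : 2 ≤ Real.exp (K * T) := by
    have := Real.add_one_le_exp (K * T)
    linarith
  refine ⟨Real.exp (K * T), Real.exp (200 * M * T + K * T ^ 2), hq2, ?_, ?_⟩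
  · have : 0 ≤ 200 * (M : ℝ) * T + K * T ^ 2 := by positivity
    exact Real.one_le_exp this
  intro h a B hB ha hcont R hR t ht
  obtain ⟨N, hN1, hN2⟩ := hT M (Real.exp (K * T)) hM hq2 h a B hB ha R hR
  rw [Real.log_exp] at hN1
  obtain ⟨-, -, hB3, hB4⟩ := hB
  have hR0 : (R : ℂ) ≠ 0 := by
    have : (0 : ℝ) < R := by linarith
    exact_mod_cast this.ne'
  obtain ⟨c, hc⟩ : ∃ c : ℕ → ℂ, ∀ n, c n = (starRingEnd ℂ) t * a n * ((R : ℂ)⁻¹) ^ n :=
    ⟨_, fun _ => rfl⟩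
  have hcn : ∀ n, ‖c n‖ ≤ 24 * ‖t‖ := by
    intro n
    rw [hc, norm_mul, norm_mul, RCLike.norm_conj, norm_pow, norm_inv, Complex.norm_real,
      Real.norm_of_nonneg (by linarith)]
    have h1 : (R⁻¹) ^ n ≤ 1 := pow_le_one₀ (by positivity) (inv_le_one_of_one_le₀ hR.le)
    have h0 : 0 ≤ (R⁻¹) ^ n := by positivity
    calc ‖t‖ * ‖a n‖ * (R⁻¹) ^ n ≤ ‖t‖ * ‖a n‖ * 1 :=
          mul_le_mul_of_nonneg_left h1 (by positivity)
      _ = ‖t‖ * ‖a n‖ := mul_one _
      _ ≤ ‖t‖ * 24 := mul_le_mul_of_nonneg_left (ha n) (norm_nonneg t)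
      _ = 24 * ‖t‖ := mul_comm _ _
  obtain ⟨b, hb⟩ : ∃ b : ℝ, b = 24 * M * ‖t‖ := ⟨_, rfl⟩
  have hb0 : 0 ≤ b := by rw [hb]; positivity
  have hcard : ∀ k, ((B k).card : ℝ) * (24 * ‖t‖) ≤ b := by
    intro k
    have h1 : ((B k).card : ℝ) ≤ M := by exact_mod_cast (hB3 k).2.1
    rw [hb]
    nlinarith [norm_nonneg t]
  -- maxima and minima of the blocks
  have hmax : ∀ k, ∃ m ∈ B k, ∀ n ∈ B k, n ≤ m := fun k => by
    obtain ⟨m, hm1, hm2⟩ := (B k).exists_max_image id (hB3 k).1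
    exact ⟨m, hm1, hm2⟩
  have hmin : ∀ k, ∃ m ∈ B k, ∀ n ∈ B k, m ≤ n := fun k => by
    obtain ⟨m, hm1, hm2⟩ := (B k).exists_min_image id (hB3 k).1
    exact ⟨m, hm1, hm2⟩
  choose mx hmx1 hmx2 using hmax
  choose mn hmn1 hmn2 using hmin
  have hmn0 : ∀ k, (0 : ℝ) < mn k := by
    intro k
    have := (hB3 k).2.2 _ (hmn1 k)
    exact_mod_cast this
  have hsumle : ∀ (k : ℕ) (d : ℕ → ℂ) (L : ℝ), (∀ n ∈ B k, ‖d n‖ ≤ 24 * ‖t‖ * L) → 0 ≤ L →
      ∑ n ∈ B k, ‖d n‖ ≤ b * L := by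
    intro k d L hd hL
    refine (Finset.sum_le_sum hd).trans ?_
    rw [Finset.sum_const, nsmul_eq_mul]
    calc ((B k).card : ℝ) * (24 * ‖t‖ * L) = ((B k).card : ℝ) * (24 * ‖t‖) * L := by ring
      _ ≤ b * L := mul_le_mul_of_nonneg_right (hcard k) hL
  have hmain := hP N (fun k => F c (B k)) (fun k => F (fun n => c n * (-(n : ℂ) * I)) (B k))
    (fun k => F (fun n => c n * (I / n)) (B k)) b (Real.exp (K * T)) (fun k => (mx k : ℝ))
    (fun k => (mn k : ℝ)) hb0 hq2 hmn0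
    (fun k => by
      show (mn k : ℝ) ≤ mx k
      exact_mod_cast hmn2 k _ (hmx1 k))
    (fun k => hB4 k _ (hmx1 k) _ (hmn1 (k + 1)))
    (fun k θ => by
      have h1 := F_deriv (fun n => c n * (I / n)) (B k) θ
      have h2 : F (fun n => c n * (I / n) * (-(n : ℂ) * I)) (B k) θ = F c (B k) θ := by
        refine F_congr _ _ _ (fun n hn => ?_) θ
        have h3 : (n : ℂ) ≠ 0 := by
          have := (hB3 k).2.2 n hn
          exact_mod_cast (show n ≠ 0 by omega)
        have h4 : c n * (I / n) * (-(n : ℂ) * I) = c n * (-(I * I)) * (n / n) := by ring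
        rw [h4, Complex.I_mul_I, div_self h3]
        ring
      rw [h2] at h1
      exact h1)
    (fun k θ => F_deriv c (B k) θ)
    (fun k => F_cont _ _)
    (fun k => F_periodic _ _)
    (fun k => F_periodic _ _)
    (fun k θ => by
      refine (F_bound _ _ _).trans ?_
      have := hsumle k c 1 (fun n _ => by rw [mul_one]; exact hcn n) zero_le_one
      rwa [mul_one] at this)
    (fun k θ => by
      refine (F_bound _ _ _).trans ?_
      refine hsumle k _ (mx k : ℝ) (fun n hn => ?_) (by positivity)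
      rw [norm_mul, norm_mul, norm_neg, Complex.norm_I, mul_one, Complex.norm_natCast]
      have h1 : (n : ℝ) ≤ mx k := by exact_mod_cast hmx2 k n hn
      exact mul_le_mul (hcn n) h1 (by positivity) (by positivity))
    (fun k θ => by
      refine (F_bound _ _ _).trans ?_
      have h5 := hsumle k (fun n => c n * (I / n)) (1 / (mn k : ℝ)) (fun n hn => ?_)
        (by have := hmn0 k; positivity)
      · rwa [mul_one_div] at h5
      · rw [norm_mul, norm_div, Complex.norm_I, Complex.norm_natCast]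
        have h1 : (mn k : ℝ) ≤ n := by exact_mod_cast hmn2 k n hn
        have h2 : 1 / (n : ℝ) ≤ 1 / (mn k : ℝ) := one_div_le_one_div_of_le (hmn0 k) h1
        exact mul_le_mul (hcn n) h2 (by positivity) (by positivity))
  -- comparison with `h`
  have hpt : ∀ θ : ℝ, ((starRingEnd ℂ) t * h ((R : ℂ) * cexp ((θ : ℂ) * I))).re ≤
      200 * M * T + ∑ k ∈ range N, F c (B k) θ := by
    intro θ
    have hz : ‖(R : ℂ) * cexp ((θ : ℂ) * I)‖ = R := by
      rw [norm_mul, Complex.norm_exp_ofReal_mul_I, mul_one, Complex.norm_real,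
        Real.norm_of_nonneg (by linarith)]
    have h1 := hN2 _ hz
    have h2 : ∑ k ∈ range N, F c (B k) θ = ((starRingEnd ℂ) t *
        ∑ k ∈ range N, ∑ n ∈ B k, a n * ((R : ℂ) * cexp ((θ : ℂ) * I))⁻¹ ^ n).re := by
      rw [Finset.mul_sum, Complex.re_sum]
      refine Finset.sum_congr rfl (fun k _ => ?_)
      unfold F
      congr 1
      rw [Finset.mul_sum]
      refine Finset.sum_congr rfl (fun n _ => ?_)
      rw [hc, mul_inv, mul_pow, ← Complex.exp_neg, ← Complex.exp_nat_mul]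
      have h3 : ((-((n : ℝ) * θ) : ℝ) : ℂ) * I = (n : ℂ) * -((θ : ℂ) * I) := by
        push_cast
        ring
      rw [h3]
      ring
    rw [h2]
    have h4 : ((starRingEnd ℂ) t * h ((R : ℂ) * cexp ((θ : ℂ) * I))).re -
        ((starRingEnd ℂ) t *
          ∑ k ∈ range N, ∑ n ∈ B k, a n * ((R : ℂ) * cexp ((θ : ℂ) * I))⁻¹ ^ n).re ≤
        ‖t‖ * (200 * M) := by
      rw [← Complex.sub_re, ← mul_sub]
      refine (Complex.re_le_norm _).trans ?_
      rw [norm_mul, RCLike.norm_conj]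
      exact mul_le_mul_of_nonneg_left h1 (norm_nonneg t)
    have h5 : ‖t‖ * (200 * M) ≤ 200 * M * T := by nlinarith
    linarith
  have hint : ∫ θ in (0:ℝ)..(2 * Real.pi), Real.exp ((starRingEnd ℂ) t *
      h ((R : ℂ) * cexp ((θ : ℂ) * I))).re ≤
      ∫ θ in (0:ℝ)..(2 * Real.pi), Real.exp (200 * M * T) *
        Real.exp (∑ k ∈ range N, F c (B k) θ) := by
    refine intervalIntegral.integral_mono_on (by positivity) ?_ ?_ (fun θ _ => ?_)
    · apply Continuous.intervalIntegrable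
      refine Real.continuous_exp.comp (Complex.continuous_re.comp (continuous_const.mul ?_))
      refine hcont.comp_continuous (by fun_prop) (fun θ => ?_)
      show 1 < ‖(R : ℂ) * cexp ((θ : ℂ) * I)‖
      rw [norm_mul, Complex.norm_exp_ofReal_mul_I, mul_one, Complex.norm_real,
        Real.norm_of_nonneg (by linarith)]
      exact hR
    · apply Continuous.intervalIntegrable
      exact continuous_const.mul (Real.continuous_exp.comp
        (continuous_finsetSum _ (fun k _ => F_cont c (B k))))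
    · rw [← Real.exp_add]
      exact Real.exp_le_exp.2 (hpt θ)
  refine hint.trans ?_
  rw [intervalIntegral.integral_const_mul]
  have hexp : (N : ℝ) * (b ^ 2 * Real.exp b + 4 * b ^ 2) ≤ K * T ^ 2 + ‖t‖ ^ 2 * (LL R / T) := by
    have h1 : b ^ 2 * Real.exp b + 4 * b ^ 2 ≤ ‖t‖ ^ 2 * K := by
      have h2 : Real.exp b ≤ Real.exp (24 * M * T) := by
        apply Real.exp_le_exp.2
        rw [hb]
        nlinarith
      have h3 : b ^ 2 = ‖t‖ ^ 2 * (24 * M) ^ 2 := by rw [hb]; ring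
      rw [hK]
      calc b ^ 2 * Real.exp b + 4 * b ^ 2 = b ^ 2 * (Real.exp b + 4) := by ring
        _ ≤ b ^ 2 * (Real.exp (24 * M * T) + 4) := by
          refine mul_le_mul_of_nonneg_left (by linarith) (by positivity)
        _ = ‖t‖ ^ 2 * ((24 * M) ^ 2 * (Real.exp (24 * M * T) + 4)) := by rw [h3]; ring
    have h4 : (N : ℝ) * (b ^ 2 * Real.exp b + 4 * b ^ 2) ≤ N * (‖t‖ ^ 2 * K) :=
      mul_le_mul_of_nonneg_left h1 (by positivity)
    have h5 : (N : ℝ) * (‖t‖ ^ 2 * K) ≤ (1 + LL R / (K * T)) * (‖t‖ ^ 2 * K) :=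
      mul_le_mul_of_nonneg_right hN1 (by positivity)
    have h6 : (1 + LL R / (K * T)) * (‖t‖ ^ 2 * K) = K * ‖t‖ ^ 2 + ‖t‖ ^ 2 * (LL R / T) := by
      have : K ≠ 0 := by linarith
      have : T ≠ 0 := by linarith
      field_simp
    have h7 : ‖t‖ ^ 2 ≤ T ^ 2 := pow_le_pow_left₀ (norm_nonneg t) ht 2
    have h8 : K * ‖t‖ ^ 2 ≤ K * T ^ 2 := mul_le_mul_of_nonneg_left h7 (by linarith)
    linarith
  calc Real.exp (200 * M * T) * ∫ θ in (0:ℝ)..(2 * Real.pi),
        Real.exp (∑ k ∈ range N, F c (B k) θ)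
      ≤ Real.exp (200 * M * T) * (2 * Real.pi *
          Real.exp (N * (b ^ 2 * Real.exp b + 4 * b ^ 2))) :=
        mul_le_mul_of_nonneg_left hmain (Real.exp_pos _).le
    _ ≤ Real.exp (200 * M * T) * (2 * Real.pi *
          Real.exp (K * T ^ 2 + ‖t‖ ^ 2 * (LL R / T))) := by
        refine mul_le_mul_of_nonneg_left ?_ (Real.exp_pos _).le
        exact mul_le_mul_of_nonneg_left (Real.exp_le_exp.2 hexp) (by positivity)
    _ = 2 * Real.pi * (Real.exp (200 * M * T + K * T ^ 2) *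
          Real.exp (‖t‖ ^ 2 * (LL R / T))) := by
        rw [Real.exp_add, Real.exp_add]
        ring

end Pool.Agent.R202.GL

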