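import Pool.Agent.R202.GL.Stm3

set_option autoImplicit false

open MeasureTheory

namespace Pool.Agent.R202.GL

namespace PotAux

/-- the density -/
noncomputable def dn (σ : ℝ → ℝ) (u : ℝ) : ℝ := σ u ^ 2 / (4 * Real.sinh u ^ 2)

theorem dn_nonneg (σ : ℝ → ℝ) (u : ℝ) : 0 ≤ dn σ u := by
  unfold dn
  positivity

theorem dn_cont (σ : ℝ → ℝ) (h : ContinuousOn σ (Set.Ioi 0)) :
    ContinuousOn (dn σ) (Set.Ioi 0) := by
  unfold dn
  refine (h.pow 2).div ?_ ?_
  · exact (continuous_const.mul (Real.continuous_sinh.pow 2)).continuousOn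
  · intro x hx
    have : 0 < Real.sinh x := Real.sinh_pos_iff.2 hx
    positivity

theorem udn_cont (σ : ℝ → ℝ) (h : ContinuousOn σ (Set.Ioi 0)) :
    ContinuousOn (fun u => u * dn σ u) (Set.Ioi 0) :=
  continuousOn_id.mul (dn_cont σ h)

theorem sinh_lb (y u : ℝ) (hyu : y ≤ u) :
    (1 - Real.exp (-(2 * y))) / 2 * Real.exp u ≤ Real.sinh u := by
  rw [Real.sinh_eq]
  have h1 : Real.exp (-u) ≤ Real.exp (-(2 * y)) * Real.exp u := by
    rw [← Real.exp_add]
    apply Real.exp_le_exp.2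
    linarith
  linarith

theorem bound (σ : ℝ → ℝ) (B : ℝ) (hσ : ∀ u : ℝ, 0 < u → 0 ≤ σ u ∧ σ u ≤ B) (y : ℝ)
    (hy : 0 < y) : ∃ K : ℝ, ∀ u : ℝ, y < u → dn σ u ≤ K * Real.exp (-1 * u) ∧
      u * dn σ u ≤ K * Real.exp (-1 * u) := by
  obtain ⟨c, hc⟩ : ∃ c, c = (1 - Real.exp (-(2 * y))) / 2 := ⟨_, rfl⟩
  have hc0 : 0 < c := by
    have : Real.exp (-(2 * y)) < 1 := by
      rw [Real.exp_lt_one_iff]
      linarith
    rw [hc]
    linarith
  refine ⟨B ^ 2 / (4 * c ^ 2), fun u hu => ?_⟩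
  have hu0 : 0 < u := hy.trans hu
  have hs := sinh_lb y u hu.le
  rw [← hc] at hs
  have he := Real.exp_pos u
  have hce : 0 < c * Real.exp u := by positivity
  have hB : σ u ^ 2 ≤ B ^ 2 := pow_le_pow_left₀ (hσ u hu0).1 (hσ u hu0).2 2
  have hsq : (c * Real.exp u) ^ 2 ≤ Real.sinh u ^ 2 := pow_le_pow_left₀ hce.le hs 2
  have h1 : dn σ u ≤ B ^ 2 / (4 * (c * Real.exp u) ^ 2) := by
    unfold dn
    exact div_le_div₀ (sq_nonneg B) hB (by positivity) (by linarith)
  have h2 : B ^ 2 / (4 * (c * Real.exp u) ^ 2) =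
      B ^ 2 / (4 * c ^ 2) * (Real.exp (-1 * u) * Real.exp (-1 * u)) := by
    rw [neg_one_mul, Real.exp_neg]
    field_simp
  rw [h2] at h1
  have hK : 0 ≤ B ^ 2 / (4 * c ^ 2) := by positivity
  have hen : 0 < Real.exp (-1 * u) := Real.exp_pos _
  have h3 : Real.exp (-1 * u) ≤ 1 := by
    rw [Real.exp_le_one_iff]
    linarith
  have h4 : u * Real.exp (-1 * u) ≤ 1 := by
    have h5 : u ≤ Real.exp u := by
      have := Real.add_one_le_exp u
      linarith
    calc u * Real.exp (-1 * u) ≤ Real.exp u * Real.exp (-1 * u) :=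
          mul_le_mul_of_nonneg_right h5 hen.le
      _ = 1 := by
          rw [← Real.exp_add]
          simp
  constructor
  · refine h1.trans (mul_le_mul_of_nonneg_left ?_ hK)
    nlinarith
  · calc u * dn σ u ≤ u * (B ^ 2 / (4 * c ^ 2) * (Real.exp (-1 * u) * Real.exp (-1 * u))) :=
          mul_le_mul_of_nonneg_left h1 hu0.le
      _ = B ^ 2 / (4 * c ^ 2) * ((u * Real.exp (-1 * u)) * Real.exp (-1 * u)) := by ring
      _ ≤ B ^ 2 / (4 * c ^ 2) * (1 * Real.exp (-1 * u)) := by gcongr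
      _ = _ := by ring

theorem integ (σ : ℝ → ℝ) (B : ℝ) (hcont : ContinuousOn σ (Set.Ioi 0))
    (hσ : ∀ u : ℝ, 0 < u → 0 ≤ σ u ∧ σ u ≤ B) (y : ℝ) (hy : 0 < y) :
    IntegrableOn (dn σ) (Set.Ioi y) ∧ IntegrableOn (fun u => u * dn σ u) (Set.Ioi y) := by
  obtain ⟨K, hK⟩ := bound σ B hσ y hy
  have hsub : Set.Ioi y ⊆ Set.Ioi (0 : ℝ) := Set.Ioi_subset_Ioi hy.le
  have hE : IntegrableOn (fun u => K * Real.exp (-1 * u)) (Set.Ioi y) :=
    (exp_neg_integrableOn_Ioi y one_pos).const_mul K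
  constructor
  · refine Integrable.mono' hE
      (((dn_cont σ hcont).mono hsub).aestronglyMeasurable measurableSet_Ioi) ?_
    filter_upwards [ae_restrict_mem measurableSet_Ioi] with u hu
    rw [Real.norm_eq_abs, abs_of_nonneg (dn_nonneg σ u)]
    exact (hK u hu).1
  · refine Integrable.mono' hE
      (((udn_cont σ hcont).mono hsub).aestronglyMeasurable measurableSet_Ioi) ?_
    filter_upwards [ae_restrict_mem measurableSet_Ioi] with u hu
    have hu0 : 0 < u := hy.trans hu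
    rw [Real.norm_eq_abs, abs_of_nonneg (mul_nonneg hu0.le (dn_nonneg σ u))]
    exact (hK u hu).2

end PotAux

open PotAux in
theorem pot (h : TailFTCStm) : PotStm := by
  intro σ B hcont hσ F F1 hF hF1 y hy
  have hF' : ∀ y, F y = ∫ u in Set.Ioi y, (u - y) * dn σ u := hF
  have hF1' : ∀ y, F1 y = ∫ u in Set.Ioi y, dn σ u := hF1
  have hdecomp : ∀ y, 0 < y → F y = (∫ u in Set.Ioi y, u * dn σ u) - y * F1 y := by
    intro y hy
    obtain ⟨i1, i2⟩ := integ σ B hcont hσ y hy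
    rw [hF', hF1', ← integral_const_mul, ← integral_sub i2 (i1.const_mul y)]
    refine integral_congr_ae (Filter.Eventually.of_forall fun u => ?_)
    simp only
    ring
  have hd1 : HasDerivAt F1 (-dn σ y) y := by
    have := h (dn σ) (dn_cont σ hcont) (fun z hz => (integ σ B hcont hσ z hz).1) y hy
    have he : F1 = fun y => ∫ u in Set.Ioi y, dn σ u := funext hF1'
    rw [he]
    exact this
  have hd2 : HasDerivAt (fun y : ℝ => ∫ u in Set.Ioi y, u * dn σ u) (-(y * dn σ y)) y :=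
    h (fun u => u * dn σ u) (udn_cont σ hcont) (fun z hz => (integ σ B hcont hσ z hz).2) y hy
  have hd3 : HasDerivAt (fun y : ℝ => (∫ u in Set.Ioi y, u * dn σ u) - y * F1 y) (-F1 y) y := by
    refine (hd2.sub ((hasDerivAt_id y).mul hd1)).congr_deriv ?_
    simp only [id]
    ring
  refine ⟨?_, ?_, ?_, hd1⟩
  · rw [hF']
    refine setIntegral_nonneg measurableSet_Ioi fun u hu => ?_
    have : y < u := hu
    exact mul_nonneg (by linarith) (dn_nonneg σ u)
  · rw [hF1']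
    exact setIntegral_nonneg measurableSet_Ioi fun u _ => dn_nonneg σ u
  · refine hd3.congr_of_eventuallyEq ?_
    filter_upwards [Ioi_mem_nhds hy] with z hz
    exact hdecomp z hz

end Pool.Agent.R202.GL
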