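import Pool.Agent.R202.GL.Stm0

/-!
GL-2 (helper718): exponential moments of sums of functions at separated scales.
-/

set_option autoImplicit false

open Complex Finset

namespace Pool.Agent.R202.GL

namespace ProdP

theorem exp_le (x : ℝ) : Real.exp x ≤ 1 + x + x ^ 2 * Real.exp |x| := by
  have h1 : 1 ≤ Real.exp |x| := Real.one_le_exp (abs_nonneg x)
  have hx2 : 0 ≤ x ^ 2 := sq_nonneg x
  by_cases h : |x| ≤ 1
  · have h2 := (abs_le.1 (Real.abs_exp_sub_one_sub_id_le h)).2
    nlinarith
  · push Not at h
    rcases lt_or_ge 0 x with hx | hx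
    · rw [abs_of_pos hx] at h h1 ⊢
      have : 1 ≤ x ^ 2 := by nlinarith
      nlinarith [Real.exp_pos x]
    · rw [abs_of_nonpos hx] at h h1 ⊢
      have h3 : Real.exp x ≤ 1 := Real.exp_le_one_iff.2 hx
      have : -x ≤ x ^ 2 := by nlinarith
      nlinarith

theorem sum_le {q : ℝ} {m n : ℕ → ℝ} (hq : 2 ≤ q) (hn : ∀ k, 0 < n k) (hnm : ∀ k, n k ≤ m k)
    (hqm : ∀ k, q * m k ≤ n (k + 1)) (N : ℕ) : q * ∑ j ∈ range N, m j ≤ 2 * n N := by
  induction N with
  | zero => simp [(hn 0).le]
  | succ N ih =>
    rw [sum_range_succ, mul_add]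
    have h1 := hnm N
    have h2 := hn N
    have h3 := hqm N
    nlinarith

end ProdP

open ProdP in
theorem prod : ProdStm := by
  intro N u u' U b q m n hb hq hn hnm hqm hU hu hu'c hUp hup hub hu'b hUb
  have huc : ∀ k, Continuous (u k) := fun k =>
    continuous_iff_continuousAt.2 fun θ => (hu k θ).continuousAt
  have hUc : ∀ k, Continuous (U k) := fun k =>
    continuous_iff_continuousAt.2 fun θ => (hU k θ).continuousAt
  have h2π : (0 : ℝ) ≤ 2 * Real.pi := by positivity
  induction N with
  | zero => simp
  | succ N ih =>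
    set G : ℝ → ℝ := fun θ => Real.exp (∑ k ∈ range N, u k θ) with hG
    set S : ℝ → ℝ := fun θ => ∑ k ∈ range N, u' k θ with hS
    have hSc : Continuous S := continuous_finsetSum _ fun k _ => hu'c k
    have hGc : Continuous G := Real.continuous_exp.comp (continuous_finsetSum _ fun k _ => huc k)
    have hG0 : ∀ θ, 0 < G θ := fun θ => Real.exp_pos _
    have hGd : ∀ θ, HasDerivAt G (G θ * S θ) θ := fun θ =>
      (HasDerivAt.fun_sum fun k _ => hu k θ).exp
    set I : ℝ := ∫ θ in (0:ℝ)..(2 * Real.pi), G θ with hI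
    have hI0 : 0 ≤ I := intervalIntegral.integral_nonneg h2π fun θ _ => (hG0 θ).le
    have hmN : 0 < n N := hn N
    -- the linear term
    have hparts := intervalIntegral.integral_mul_deriv_eq_deriv_mul (a := 0) (b := 2 * Real.pi)
      (u := G) (v := U N) (u' := fun θ => G θ * S θ) (v' := u N) (fun x _ => hGd x)
      (fun x _ => hU N x) (hGc.mul hSc).continuousOn.intervalIntegrable
      (huc N).continuousOn.intervalIntegrable
    have hGper : G (2 * Real.pi) = G 0 := by
      show Real.exp (∑ k ∈ range N, u k (2 * Real.pi)) = Real.exp (∑ k ∈ range N, u k 0)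
      congr 1
      refine sum_congr rfl fun k _ => ?_
      have := hup k 0
      rwa [zero_add] at this
    have hUper : U N (2 * Real.pi) = U N 0 := by
      have := hUp N 0
      rwa [zero_add] at this
    rw [hGper, hUper, sub_self, zero_sub] at hparts
    have hSb : ∀ θ, |S θ| ≤ b * (2 * n N / q) := by
      intro θ
      calc |S θ| ≤ ∑ k ∈ range N, |u' k θ| := abs_sum_le_sum_abs _ _
        _ ≤ ∑ k ∈ range N, b * m k := sum_le_sum fun k _ => hu'b k θ
        _ = b * ∑ k ∈ range N, m k := by rw [mul_sum]
        _ ≤ b * (2 * n N / q) := by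
            apply mul_le_mul_of_nonneg_left _ hb
            rw [le_div_iff₀ (by linarith)]
            have := sum_le hq hn hnm hqm N
            linarith
    have hlin : ∫ θ in (0:ℝ)..(2 * Real.pi), G θ * u N θ ≤ b ^ 2 * I := by
      rw [hparts]
      have h1 : -(∫ θ in (0:ℝ)..(2 * Real.pi), G θ * S θ * U N θ) =
          ∫ θ in (0:ℝ)..(2 * Real.pi), -(G θ * S θ * U N θ) :=
        (intervalIntegral.integral_neg).symm
      rw [h1]
      have h2 : b ^ 2 * I = ∫ θ in (0:ℝ)..(2 * Real.pi), b ^ 2 * G θ := by
        rw [intervalIntegral.integral_const_mul]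
      rw [h2]
      refine intervalIntegral.integral_mono h2π ?_ ?_ ?_
      · exact (((hGc.mul hSc).mul (hUc N)).neg).intervalIntegrable _ _
      · exact (continuous_const.mul hGc).intervalIntegrable _ _
      · intro θ
        show -(G θ * S θ * U N θ) ≤ b ^ 2 * G θ
        have k1 : |S θ * U N θ| ≤ b * (2 * n N / q) * (b / n N) := by
          rw [abs_mul]
          exact mul_le_mul (hSb θ) (hUb N θ) (abs_nonneg _) (by positivity)
        have k2 : b * (2 * n N / q) * (b / n N) = b ^ 2 * (2 / q) := by
          field_simp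
        have k3 : b ^ 2 * (2 / q) ≤ b ^ 2 := by
          have : 2 / q ≤ 1 := by
            rw [div_le_one (by linarith)]
            exact hq
          nlinarith [sq_nonneg b]
        have k4 : -(S θ * U N θ) ≤ b ^ 2 := by
          have := neg_abs_le (S θ * U N θ)
          linarith
        have := hG0 θ
        nlinarith
    -- the step
    have hstep : ∫ θ in (0:ℝ)..(2 * Real.pi), Real.exp (∑ k ∈ range (N + 1), u k θ) ≤
        (1 + b ^ 2 * Real.exp b) * I + b ^ 2 * I := by
      have h1 : ∫ θ in (0:ℝ)..(2 * Real.pi), Real.exp (∑ k ∈ range (N + 1), u k θ) ≤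
          ∫ θ in (0:ℝ)..(2 * Real.pi), ((1 + b ^ 2 * Real.exp b) * G θ + G θ * u N θ) := by
        refine intervalIntegral.integral_mono h2π ?_ ?_ ?_
        · exact (Real.continuous_exp.comp
            (continuous_finsetSum _ fun k _ => huc k)).intervalIntegrable _ _
        · exact ((continuous_const.mul hGc).add (hGc.mul (huc N))).intervalIntegrable _ _
        · intro θ
          show Real.exp (∑ k ∈ range (N + 1), u k θ) ≤
            (1 + b ^ 2 * Real.exp b) * G θ + G θ * u N θ
          rw [sum_range_succ, Real.exp_add]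
          have k1 := exp_le (u N θ)
          have k2 : Real.exp |u N θ| ≤ Real.exp b := Real.exp_le_exp.2 (hub N θ)
          have k3 : (u N θ) ^ 2 ≤ b ^ 2 := by
            rw [← sq_abs]
            exact pow_le_pow_left₀ (abs_nonneg _) (hub N θ) 2
          have k4 : (u N θ) ^ 2 * Real.exp |u N θ| ≤ b ^ 2 * Real.exp b :=
            mul_le_mul k3 k2 (Real.exp_pos _).le (sq_nonneg b)
          have k5 : Real.exp (u N θ) ≤ 1 + b ^ 2 * Real.exp b + u N θ := by linarith
          have k6 := mul_le_mul_of_nonneg_left k5 (hG0 θ).le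
          show G θ * Real.exp (u N θ) ≤ _
          linarith
      refine h1.trans ?_
      have i1 : IntervalIntegrable (fun θ => (1 + b ^ 2 * Real.exp b) * G θ) MeasureTheory.volume 0
          (2 * Real.pi) := (continuous_const.mul hGc).intervalIntegrable _ _
      have i2 : IntervalIntegrable (fun θ => G θ * u N θ) MeasureTheory.volume 0
          (2 * Real.pi) := (hGc.mul (huc N)).intervalIntegrable _ _
      rw [intervalIntegral.integral_add i1 i2, intervalIntegral.integral_const_mul]
      linarith
    set c : ℝ := b ^ 2 * Real.exp b + 4 * b ^ 2 with hc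
    have hc1 : 1 + b ^ 2 * Real.exp b + b ^ 2 ≤ Real.exp c := by
      have h1 := Real.add_one_le_exp c
      nlinarith [sq_nonneg b]
    have hfin : (1 + b ^ 2 * Real.exp b) * I + b ^ 2 * I ≤ Real.exp c * I := by
      have := mul_le_mul_of_nonneg_right hc1 hI0
      linarith
    refine (hstep.trans hfin).trans ?_
    have h3 : Real.exp c * I ≤ Real.exp c * (2 * Real.pi * Real.exp (N * c)) :=
      mul_le_mul_of_nonneg_left ih (Real.exp_pos _).le
    refine h3.trans (le_of_eq ?_)
    have h4 : Real.exp (((N + 1 : ℕ) : ℝ) * c) = Real.exp (N * c) * Real.exp c := by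
      rw [← Real.exp_add]
      push_cast
      ring_nf
    rw [h4]
    ring

end Pool.Agent.R202.GL
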