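import Mathlib

set_option autoImplicit false

open MeasureTheory

namespace Pool.Agent.R202.GL

/-- GL-6: derivative of a tail integral -/
def TailFTCStm : Prop :=
  ∀ g : ℝ → ℝ, ContinuousOn g (Set.Ioi 0) → (∀ y : ℝ, 0 < y → IntegrableOn g (Set.Ioi y)) →
    ∀ y : ℝ, 0 < y → HasDerivAt (fun y : ℝ => ∫ u in Set.Ioi y, g u) (-g y) y

/-- GL-7: the potential of a continuous bounded density of squared radii over the scales -/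
def PotStm : Prop :=
  ∀ (σ : ℝ → ℝ) (B : ℝ), ContinuousOn σ (Set.Ioi 0) → (∀ u : ℝ, 0 < u → 0 ≤ σ u ∧ σ u ≤ B) →
    ∀ F F1 : ℝ → ℝ,
    (∀ y, F y = ∫ u in Set.Ioi y, (u - y) * (σ u ^ 2 / (4 * Real.sinh u ^ 2))) →
    (∀ y, F1 y = ∫ u in Set.Ioi y, σ u ^ 2 / (4 * Real.sinh u ^ 2)) →
    ∀ y : ℝ, 0 < y → 0 ≤ F y ∧ 0 ≤ F1 y ∧ HasDerivAt F (-F1 y) y ∧
      HasDerivAt F1 (-(σ y ^ 2 / (4 * Real.sinh y ^ 2))) y

end Pool.Agent.R202.GL
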