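import Pool.Agent.R202.GL.Stm0

/-!
# GL-3: number of relevant blocks and the tail
-/

set_option autoImplicit false

open Complex Finset

namespace Pool.Agent.R202.GL

namespace TailAux

theorem X_gt {R : ℝ} (hR : 1 < R) : 1 < R ^ 2 / (R ^ 2 - 1) := by
  have h1 : 0 < R ^ 2 - 1 := by nlinarith
  rw [lt_div_iff₀ h1]
  linarith

/-- decay of `R⁻ⁿ` -/
theorem decay {R : ℝ} (hR : 1 < R) (n : ℕ) (j : ℕ)
    (hn : 2 ^ j * (R ^ 2 / (R ^ 2 - 1)) ≤ (n : ℝ)) : (R⁻¹) ^ n ≤ 2 * (1 / 2) ^ j := by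
  have hR0 : 0 < R := by linarith
  have h1 : 0 < R ^ 2 - 1 := by nlinarith
  set X := R ^ 2 / (R ^ 2 - 1) with hX
  have hX1 : 1 < X := X_gt hR
  have hX0 : 0 < X := by linarith
  have h2 : R⁻¹ ^ 2 = 1 - 1 / X := by
    rw [hX]
    have : R ^ 2 ≠ 0 := by positivity
    field_simp
    ring
  have h3 : R⁻¹ ^ 2 ≤ Real.exp (-(1 / X)) := by
    rw [h2]
    have := Real.add_one_le_exp (-(1 / X))
    linarith
  have h4 : R⁻¹ ≤ Real.exp (-(1 / X) / 2) := by
    have h5 : R⁻¹ ^ 2 ≤ (Real.exp (-(1 / X) / 2)) ^ 2 := by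
      rw [← Real.exp_nat_mul]
      convert h3 using 2
      push_cast
      ring
    exact (pow_le_pow_iff_left₀ (by positivity) (Real.exp_pos _).le (by norm_num)).mp h5
  have h5 : (R⁻¹) ^ n ≤ Real.exp (-((n : ℝ) / X / 2)) := by
    calc (R⁻¹) ^ n ≤ (Real.exp (-(1 / X) / 2)) ^ n := pow_le_pow_left₀ (by positivity) h4 n
      _ = Real.exp (-((n : ℝ) / X / 2)) := by
        rw [← Real.exp_nat_mul]
        congr 1
        ring
  refine h5.trans ?_
  have h6 : (2 : ℝ) ^ j ≤ (n : ℝ) / X := by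
    rw [le_div_iff₀ hX0]
    exact hn
  have h7 : Real.exp (-((n : ℝ) / X / 2)) ≤ Real.exp (-((2 : ℝ) ^ j / 2)) := by
    apply Real.exp_le_exp.mpr
    linarith
  refine h7.trans ?_
  rw [Real.exp_neg]
  have h8 : (2 : ℝ) ^ j / 2 ≤ Real.exp ((2 : ℝ) ^ j / 2) := by
    have := Real.add_one_le_exp ((2 : ℝ) ^ j / 2)
    linarith
  have h9 : (0 : ℝ) < (2 : ℝ) ^ j / 2 := by positivity
  have h10 : (Real.exp ((2 : ℝ) ^ j / 2))⁻¹ ≤ ((2 : ℝ) ^ j / 2)⁻¹ := inv_anti₀ h9 h8
  refine h10.trans (le_of_eq ?_)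
  rw [one_div, inv_pow]
  field_simp

end TailAux

theorem tail : TailStm := by
  classical
  intro M q hM hq h a B hB ha R hR
  obtain ⟨hsum, hspec, hprop, hgap⟩ := hB
  have hR0 : 0 < R := by linarith
  have hmu : ∀ k, ∃ m, m ∈ B k ∧ ∀ n ∈ B k, m ≤ n := fun k =>
    ⟨(B k).min' (hprop k).1, Finset.min'_mem _ _, fun n hn => Finset.min'_le _ _ hn⟩
  choose μ hμ1 hμ2 using hmu
  have hμpos : ∀ k, (1 : ℝ) ≤ μ k := fun k => by exact_mod_cast (hprop k).2.2 _ (hμ1 k)
  have hμq : ∀ k, q * (μ k : ℝ) ≤ μ (k + 1) := fun k => hgap k _ (hμ1 k) _ (hμ1 (k + 1))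
  have hpow : ∀ k, q ^ k ≤ (μ k : ℝ) := by
    intro k
    induction k with
    | zero => simpa using hμpos 0
    | succ k ih =>
      rw [pow_succ']
      exact (mul_le_mul_of_nonneg_left ih (by linarith)).trans (hμq k)
  have hpow2 : ∀ k j, 2 ^ j * (μ k : ℝ) ≤ (μ (k + j) : ℝ) := by
    intro k j
    induction j with
    | zero => simp
    | succ j ih =>
      have h1 := hμq (k + j)
      have h2 := hμpos (k + j)
      rw [pow_succ', ← add_assoc]
      nlinarith
  set X := R ^ 2 / (R ^ 2 - 1) with hX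
  have hX1 : 1 < X := TailAux.X_gt hR
  have hX0 : 0 < X := by linarith
  have hex : ∃ k, X < (μ k : ℝ) := by
    obtain ⟨k, hk⟩ := pow_unbounded_of_one_lt X (show 1 < q by linarith)
    exact ⟨k, hk.trans_le (hpow k)⟩
  have hdisj : ∀ k j, ∀ m ∈ B k, ∀ n ∈ B (k + 1 + j), m < n := by
    intro k j
    induction j with
    | zero =>
      intro m hm n hn
      have h1 := hgap k m hm n hn
      have h2 : (1 : ℝ) ≤ m := by exact_mod_cast (hprop k).2.2 m hm
      have h3 : (m : ℝ) < n := by nlinarith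
      exact_mod_cast h3
    | succ j ih =>
      intro m hm n hn
      obtain ⟨m', hm'⟩ := (hprop (k + 1 + j)).1
      have h0 := ih m hm m' hm'
      have h1 := hgap (k + 1 + j) m' hm' n hn
      have h2 : (1 : ℝ) ≤ m' := by exact_mod_cast (hprop _).2.2 m' hm'
      have h3 : (m' : ℝ) < n := by nlinarith
      have h4 : m' < n := by exact_mod_cast h3
      omega
  have hpair : ∀ k l, k ≠ l → Disjoint (B k) (B l) := by
    intro k l hkl
    rw [Finset.disjoint_left]
    intro n hn hn'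
    rcases Nat.lt_or_gt_of_ne hkl with h1 | h1
    · obtain ⟨j, rfl⟩ := Nat.exists_eq_add_of_le (show k + 1 ≤ l from h1)
      exact absurd (hdisj k j n hn n hn') (lt_irrefl _)
    · obtain ⟨j, rfl⟩ := Nat.exists_eq_add_of_le (show l + 1 ≤ k from h1)
      exact absurd (hdisj l j n hn' n hn) (lt_irrefl _)
  refine ⟨Nat.find hex, ?_, ?_⟩
  · have hlq : 0 < Real.log q := Real.log_pos (by linarith)
    have hlX : 0 < Real.log X := Real.log_pos hX1
    change _ ≤ 1 + Real.log X / Real.log q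
    rcases Nat.eq_zero_or_pos (Nat.find hex) with h0 | h0
    · rw [h0]
      have := div_pos hlX hlq
      push_cast
      linarith
    · obtain ⟨K, hK⟩ : ∃ K, Nat.find hex = K + 1 := ⟨Nat.find hex - 1, by omega⟩
      have h1 := Nat.find_min hex (show K < Nat.find hex by omega)
      push Not at h1
      have h2 : q ^ K ≤ X := (hpow K).trans h1
      have h3 : (K : ℝ) * Real.log q ≤ Real.log X := by
        rw [← Real.log_pow]
        exact Real.log_le_log (by positivity) h2
      rw [hK]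
      push_cast
      have h4 : (K : ℝ) ≤ Real.log X / Real.log q := by
        rw [le_div_iff₀ hlq]
        exact h3
      linarith
  · intro z hz
    set N := Nat.find hex with hN
    have hNX : X < (μ N : ℝ) := Nat.find_spec hex
    -- norm bound in blocks
    have hblock : ∀ j, ∀ n ∈ B (N + j), ‖a n * z⁻¹ ^ n‖ ≤ 48 * (1 / 2) ^ j := by
      intro j n hn
      have h1 : 2 ^ j * X ≤ (n : ℝ) := by
        have h2 := hpow2 N j
        have h3 : (μ (N + j) : ℝ) ≤ n := by exact_mod_cast hμ2 _ n hn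
        have h4 : (2 : ℝ) ^ j * X ≤ 2 ^ j * (μ N : ℝ) :=
          mul_le_mul_of_nonneg_left hNX.le (by positivity)
        linarith
      have h5 := TailAux.decay hR n j h1
      rw [norm_mul, norm_pow, norm_inv, hz]
      calc ‖a n‖ * R⁻¹ ^ n ≤ 24 * (2 * (1 / 2) ^ j) :=
            mul_le_mul (ha n) h5 (by positivity) (by norm_num)
        _ = 48 * (1 / 2) ^ j := by ring
    have hbs : ∀ j, ∑ n ∈ B (N + j), ‖a n * z⁻¹ ^ n‖ ≤ (M : ℝ) * (48 * (1 / 2) ^ j) := by
      intro j
      calc ∑ n ∈ B (N + j), ‖a n * z⁻¹ ^ n‖ ≤ ∑ n ∈ B (N + j), 48 * (1 / 2) ^ j :=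
            Finset.sum_le_sum (hblock j)
        _ = ((B (N + j)).card : ℝ) * (48 * (1 / 2) ^ j) := by
            rw [Finset.sum_const, nsmul_eq_mul]
        _ ≤ (M : ℝ) * (48 * (1 / 2) ^ j) := by
            apply mul_le_mul_of_nonneg_right _ (by positivity)
            exact_mod_cast (hprop (N + j)).2.1
    set S : Finset ℕ := (range N).biUnion B with hS
    have hSsum : ∑ k ∈ range N, ∑ n ∈ B k, a n * z⁻¹ ^ n = ∑ n ∈ S, a n * z⁻¹ ^ n := by
      rw [hS, Finset.sum_biUnion]
      intro k _ l _ hkl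
      exact hpair k l hkl
    rw [hSsum]
    have hlim : Filter.Tendsto (fun F : Finset ℕ =>
        ‖∑ n ∈ F, a n * z⁻¹ ^ n - ∑ n ∈ S, a n * z⁻¹ ^ n‖) Filter.atTop
        (nhds ‖h z - ∑ n ∈ S, a n * z⁻¹ ^ n‖) := by
      have h1 : Filter.Tendsto (fun F : Finset ℕ => ∑ n ∈ F, a n * z⁻¹ ^ n) Filter.atTop
          (nhds (h z)) := hsum z (by rw [hz]; exact hR)
      exact (h1.sub_const _).norm
    have hfin : ∀ F : Finset ℕ, S ⊆ F →
        ‖∑ n ∈ F, a n * z⁻¹ ^ n - ∑ n ∈ S, a n * z⁻¹ ^ n‖ ≤ 200 * M := by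
      intro F hSF
      rw [← Finset.sum_sdiff hSF, add_sub_cancel_right]
      -- the index of a block
      choose! κ hκ using hspec
      set T : Finset ℕ := (F \ S).filter fun n => a n ≠ 0 with hT
      have h1 : ∑ n ∈ F \ S, a n * z⁻¹ ^ n = ∑ n ∈ T, a n * z⁻¹ ^ n := by
        rw [hT]
        symm
        apply Finset.sum_filter_of_ne
        intro n _ hn h0
        apply hn
        rw [h0, zero_mul]
      rw [h1]
      set L := T.sup κ + 1 with hL
      have hsub : T ⊆ (range L).biUnion fun j => B (N + j) := by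
        intro n hn
        have hn' := hn
        rw [hT, Finset.mem_filter, Finset.mem_sdiff] at hn'
        have h2 := hκ n hn'.2
        have h3 : N ≤ κ n := by
          by_contra hlt
          push Not at hlt
          apply hn'.1.2
          rw [hS, Finset.mem_biUnion]
          exact ⟨κ n, Finset.mem_range.mpr hlt, h2⟩
        rw [Finset.mem_biUnion]
        refine ⟨κ n - N, ?_, ?_⟩
        · rw [Finset.mem_range, hL]
          have h4 : κ n ≤ T.sup κ := Finset.le_sup hn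
          omega
        · rw [Nat.add_sub_cancel' h3]
          exact h2
      calc ‖∑ n ∈ T, a n * z⁻¹ ^ n‖ ≤ ∑ n ∈ T, ‖a n * z⁻¹ ^ n‖ := norm_sum_le _ _
        _ ≤ ∑ n ∈ (range L).biUnion fun j => B (N + j), ‖a n * z⁻¹ ^ n‖ :=
            Finset.sum_le_sum_of_subset_of_nonneg hsub (fun _ _ _ => norm_nonneg _)
        _ = ∑ j ∈ range L, ∑ n ∈ B (N + j), ‖a n * z⁻¹ ^ n‖ := by
            rw [Finset.sum_biUnion]
            intro k _ l _ hkl
            exact hpair _ _ (by omega)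
        _ ≤ ∑ j ∈ range L, (M : ℝ) * (48 * (1 / 2) ^ j) := Finset.sum_le_sum fun j _ => hbs j
        _ = (M : ℝ) * 48 * ∑ j ∈ range L, (1 / 2 : ℝ) ^ j := by
            rw [Finset.mul_sum]
            exact Finset.sum_congr rfl fun j _ => by ring
        _ ≤ (M : ℝ) * 48 * 2 := by
            apply mul_le_mul_of_nonneg_left (sum_geometric_two_le L) (by positivity)
        _ ≤ 200 * M := by
            have : (0 : ℝ) ≤ M := by positivity
            linarith
    apply le_of_tendsto hlim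
    filter_upwards [Filter.eventually_ge_atTop S] with F hF
    exact hfin F hF

end Pool.Agent.R202.GL
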