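import Pool.Agent.R202.GL.Stm3

set_option autoImplicit false

open MeasureTheory

namespace Pool.Agent.R202.GL

theorem tailFTC : TailFTCStm := by
  intro g hg hi y hy
  have hyz : y ≤ y + 1 := by linarith
  have hI : IntervalIntegrable g volume y (y + 1) := by
    rw [intervalIntegrable_iff_integrableOn_Ioc_of_le hyz]
    exact (hi y hy).mono_set Set.Ioc_subset_Ioi_self
  have h1 : HasDerivAt (fun u : ℝ => ∫ x in u..(y + 1), g x) (-g y) y :=
    intervalIntegral.integral_hasDerivAt_left hI
      (hg.stronglyMeasurableAtFilter isOpen_Ioi y hy)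
      (hg.continuousAt (isOpen_Ioi.mem_nhds hy))
  have h2 : HasDerivAt (fun u : ℝ => (∫ x in u..(y + 1), g x) + ∫ x in Set.Ioi (y + 1), g x)
      (-g y) y := h1.add_const _
  refine h2.congr_of_eventuallyEq ?_
  filter_upwards [isOpen_Ioi.mem_nhds hy] with u hu
  exact (intervalIntegral.integral_interval_add_Ioi (hi u hu) (hi (y + 1) (by linarith))).symm

end Pool.Agent.R202.GL
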